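import Pool.Agent.TH93.CA.Dist

/-!
# The chain of levels for the complement of a language with few guessed bits

Every cell `j` belongs to an input `own j`; an input is hit if one of its cells wins. A
nondeterministic algorithm (`Acc v z` says that it accepts the input `v`) which accepts exactly the
inputs that are not hit is right on few points.
-/

set_option autoImplicit false

namespace Pool.Agent.TH93.CC

open Finset
open Pool.Agent.TH93.CA

variable {I J ι : Type*} [Fintype I] [DecidableEq I] [Fintype J] [DecidableEq J]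
variable [Fintype ι] [DecidableEq ι]
variable {W : J → Finset I} {s : ℕ}

/-- planting a winner: few cells are forbidden -/
theorem step_gen (hW : Sys W s) {k D : ℕ} {X Y : Finset (I → Bool)} (hX : X ⊆ lev W k)
    (hY : Y ⊆ lev W (k + 1)) (Bad : (I → Bool) → Finset J) (hB : ∀ z ∈ X, (Bad z).card ≤ D)
    (h : ∀ z ∈ X, ∀ j, j ∉ win W z → j ∉ Bad z → plant W z j ∈ Y) :
    X.card * (Fintype.card J - k - D) ≤ Y.card * ((k + 1) * (2 ^ s - 1)) := by
  classical
  rw [← card_up hW hY]
  set G : (I → Bool) → Finset J := fun z =>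
    univ.filter fun j => j ∉ win W z ∧ j ∉ Bad z with hG
  have h1 : X.card * (Fintype.card J - k - D) ≤ (X.sigma G).card := by
    rw [card_sigma, ← smul_eq_mul]
    refine Finset.card_nsmul_le_sum _ _ _ fun z hz => ?_
    have h2 : (univ : Finset J) ⊆ G z ∪ (win W z ∪ Bad z) := by
      intro j _
      rw [hG]
      simp only [mem_union, mem_filter, mem_univ, true_and]
      tauto
    have h3 := (card_le_card h2).trans (card_union_le _ _)
    have h4 := card_union_le (win W z) (Bad z)
    have h6 := hB z hz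
    have h7 := mem_lev.1 (hX hz)
    rw [card_univ] at h3
    omega
  refine h1.trans ?_
  refine card_le_card_of_injOn (fun p => ⟨plant W p.1 p.2, ⟨p.2, cont W p.1 p.2⟩⟩) ?_ ?_
  · rintro ⟨z, j⟩ hp
    rw [mem_coe, mem_sigma] at hp
    obtain ⟨hz, hj⟩ := hp
    rw [hG] at hj
    simp only [mem_filter, mem_univ, true_and] at hj
    rw [mem_coe, up, mem_sigma, mem_sigma]
    refine ⟨h z hz j hj.1 hj.2, ?_, cont_mem hj.1⟩
    show j ∈ win W (plant W z j)
    rw [win_plant hW]
    exact mem_insert_self _ _
  · rintro ⟨z, j⟩ _ ⟨z', j'⟩ _ he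
    simp only [Sigma.mk.injEq, heq_eq_eq] at he
    obtain ⟨h2, h3, h4⟩ := he
    subst h3
    have h5 := unplant_plant (W := W) z j
    have h6 := unplant_plant (W := W) z' j
    rw [h2, h4, h6] at h5
    rw [h5]

variable (W) in
/-- the input is hit -/
def Hit (own : J → ι) (z : I → Bool) (v : ι) : Prop := ∃ j ∈ win W z, own j = v

variable (W) in
/-- the algorithm is right on all inputs -/
def Cor (own : J → ι) (Acc : ι → (I → Bool) → Prop) (z : I → Bool) : Prop :=
  ∀ v, (Acc v z ↔ ¬ Hit W own z v)

variable (own : J → ι) (Acc : ι → (I → Bool) → Prop)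

variable (W) in
open scoped Classical in
/-- the right points in the level `k` -/
noncomputable def CC (k : ℕ) : Finset (I → Bool) := (lev W k).filter fun z => Cor W own Acc z

variable (W) in
open scoped Classical in
/-- the points in the level `k` where an input that is hit is accepted -/
noncomputable def UU (k : ℕ) : Finset (I → Bool) :=
  (lev W k).filter fun z => ∃ v, Hit W own z v ∧ Acc v z

variable {own Acc}

open Classical in
theorem disj_CU {k : ℕ} : Disjoint (CC W own Acc k) (UU W own Acc k) := by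
  rw [disjoint_left]
  intro z h1 h2
  rw [CC, mem_filter] at h1
  rw [UU, mem_filter] at h2
  obtain ⟨_, v, hv, hA⟩ := h2
  exact (h1.2 v).1 hA hv

open Classical in
theorem touch_card (hW : Sys W s) (U : Finset I) :
    (univ.filter fun j => ¬ Disjoint (W j) U).card ≤ U.card := by
  have h6 : (univ.filter fun j => ¬ Disjoint (W j) U) ⊆
      U.biUnion fun i => univ.filter fun j => i ∈ W j := by
    intro j hj
    rw [mem_filter, Finset.not_disjoint_iff] at hj
    obtain ⟨i, hi, hi2⟩ := hj.2
    rw [mem_biUnion]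
    exact ⟨i, hi2, mem_filter.2 ⟨mem_univ _, hi⟩⟩
  refine (card_le_card h6).trans ((card_biUnion_le_card_mul _ _ 1 fun i _ => ?_).trans ?_)
  · rw [card_le_one]
    intro j hj j' hj'
    rw [mem_filter] at hj hj'
    by_contra hne
    exact disjoint_left.1 (hW.disj j j' hne) hj.2 hj'.2
  · rw [mul_one]

theorem plant_acc {T : ℕ} (hA : ∀ v, ∀ z, Acc v z → ∃ U : Finset I, U.card ≤ T ∧
    ∀ z' : I → Bool, (∀ i ∈ U, z' i = z i) → Acc v z') {v : ι} {z : I → Bool} (h : Acc v z) :
    ∃ U : Finset I, U.card ≤ T ∧ ∀ j, Disjoint (W j) U → Acc v (plant W z j) := by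
  obtain ⟨U, hU, hU2⟩ := hA v z h
  refine ⟨U, hU, fun j hj => hU2 _ fun i hi => ?_⟩
  unfold plant
  rw [if_neg fun h => disjoint_left.1 hj h hi]

open Classical in
theorem chain_step (hW : Sys W s) {T K : ℕ} (hK : ∀ v, (univ.filter fun j => own j = v).card ≤ K)
    (hA : ∀ v, ∀ z, Acc v z → ∃ U : Finset I,
      U.card ≤ T ∧ ∀ z' : I → Bool, (∀ i ∈ U, z' i = z i) → Acc v z') (hne : Nonempty ι) (k : ℕ) :
    ((CC W own Acc k).card + (UU W own Acc k).card) *
      (Fintype.card J - k - (k * K + Fintype.card ι * T)) ≤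
      (UU W own Acc (k + 1)).card * ((k + 1) * (2 ^ s - 1)) := by
  rw [← card_union_of_disjoint disj_CU]
  -- the forbidden cells
  have hBad : ∀ z : I → Bool, ∃ Bad : Finset J, z ∈ CC W own Acc k ∪ UU W own Acc k →
      Bad.card ≤ k * K + Fintype.card ι * T ∧ ∀ j, j ∉ win W z → j ∉ Bad →
        plant W z j ∈ UU W own Acc (k + 1) := by
    intro z
    by_cases hz : z ∈ CC W own Acc k ∪ UU W own Acc k
    swap
    · exact ⟨∅, fun h => absurd h hz⟩
    have hlev : (win W z).card = k := by
      rw [mem_union, CC, UU, mem_filter, mem_filter] at hz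
      rcases hz with h | h
      · exact mem_lev.1 h.1
      · exact mem_lev.1 h.1
    have hpl : ∀ j, j ∉ win W z → plant W z j ∈ lev W (k + 1) := by
      intro j hj
      rw [mem_lev, win_plant hW, card_insert_of_notMem hj, hlev]
    rw [mem_union] at hz
    rcases hz with h | h
    · rw [CC, mem_filter] at h
      have h1 : ∀ v, ∃ U : Finset I, ¬ Hit W own z v → U.card ≤ T ∧
          ∀ j, Disjoint (W j) U → Acc v (plant W z j) := by
        intro v
        by_cases hv : Hit W own z v
        · exact ⟨∅, fun h => absurd hv h⟩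
        · obtain ⟨U, hU, hU2⟩ := plant_acc (W := W) hA ((h.2 v).2 hv)
          exact ⟨U, fun _ => ⟨hU, hU2⟩⟩
      choose U hU using h1
      refine ⟨((win W z).biUnion fun j => univ.filter fun j' => own j' = own j) ∪
        (univ : Finset ι).biUnion (fun v => if Hit W own z v then ∅ else
          univ.filter fun j => ¬ Disjoint (W j) (U v)), fun _ => ⟨?_, fun j hj hjB => ?_⟩⟩
      · refine (card_union_le _ _).trans (Nat.add_le_add ?_ ?_)
        · refine (card_biUnion_le_card_mul _ _ K fun j _ => hK _).trans ?_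
          rw [hlev]
        · refine (card_biUnion_le_card_mul _ _ T fun v _ => ?_).trans ?_
          · split_ifs with hv
            · simp
            · exact (touch_card hW (U v)).trans (hU v hv).1
          · rw [card_univ]
      · rw [mem_union, not_or] at hjB
        have hv : ¬ Hit W own z (own j) := by
          rintro ⟨j', hj', he⟩
          apply hjB.1
          rw [mem_biUnion]
          exact ⟨j', hj', mem_filter.2 ⟨mem_univ _, he.symm⟩⟩
        have hd : Disjoint (W j) (U (own j)) := by
          by_contra hd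
          apply hjB.2
          rw [mem_biUnion]
          refine ⟨own j, mem_univ _, ?_⟩
          rw [if_neg hv]
          exact mem_filter.2 ⟨mem_univ _, hd⟩
        rw [UU, mem_filter]
        refine ⟨hpl j hj, own j, ⟨j, ?_, rfl⟩, (hU _ hv).2 j hd⟩
        rw [win_plant hW]
        exact mem_insert_self _ _
    · rw [UU, mem_filter] at h
      obtain ⟨_, v, ⟨j₀, hj₀, hv⟩, hAcc⟩ := h
      obtain ⟨U, hU, hU2⟩ := plant_acc (W := W) hA hAcc
      refine ⟨univ.filter fun j => ¬ Disjoint (W j) U, fun _ => ⟨?_, fun j hj hjB => ?_⟩⟩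
      · refine (touch_card hW U).trans (hU.trans ?_)
        have : T ≤ Fintype.card ι * T := Nat.le_mul_of_pos_left _ Fintype.card_pos
        omega
      · rw [mem_filter, not_and, not_not] at hjB
        rw [UU, mem_filter]
        refine ⟨hpl j hj, v, ⟨j₀, ?_, hv⟩, hU2 j (hjB (mem_univ _))⟩
        rw [win_plant hW]
        exact mem_insert_of_mem hj₀
  choose Bad hBad using hBad
  refine step_gen hW (k := k) ?_ ?_ Bad (fun z hz => (hBad z hz).1) fun z hz => (hBad z hz).2
  · intro z hz
    rw [mem_union, CC, UU, mem_filter, mem_filter] at hz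
    rcases hz with h | h
    · exact h.1
    · exact h.1
  · intro z hz
    rw [UU, mem_filter] at hz
    exact hz.1

theorem chain_real (hW : Sys W s) (hs : 1 ≤ s) {T K : ℕ}
    (hK : ∀ v, (univ.filter fun j => own j = v).card ≤ K)
    (hA : ∀ v, ∀ z, Acc v z → ∃ U : Finset I,
      U.card ≤ T ∧ ∀ z' : I → Bool, (∀ i ∈ U, z' i = z i) → Acc v z') (hne : Nonempty ι)
    {b R : ℕ} (hM : b + R + ((b + R) * K + Fintype.card ι * T) < Fintype.card J) {ε : ℝ}
    (hε : (((b + R) * K + Fintype.card ι * T : ℕ) : ℝ) ≤ ε * ((Fintype.card J : ℝ) - b - R)) :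
    ∀ x ≤ R, ∑ y ∈ range x, ((CC W own Acc (b + y)).card : ℝ) / (lev W (b + y)).card ≤
      (UU W own Acc (b + x)).card / (lev W (b + x)).card + x * ε := by
  obtain ⟨D, hD⟩ : ∃ D, D = (b + R) * K + Fintype.card ι * T := ⟨_, rfl⟩
  rw [← hD] at hM hε
  intro x
  induction x with
  | zero =>
    intro _
    simp only [range_zero, sum_empty, Nat.cast_zero, zero_mul, add_zero]
    positivity
  | succ x ih =>
    intro hx
    have h1 := ih (by omega)
    have h2 : ((CC W own Acc (b + x)).card + (UU W own Acc (b + x)).card) *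
        (Fintype.card J - (b + x) - D) ≤
        (UU W own Acc (b + x + 1)).card * ((b + x + 1) * (2 ^ s - 1)) := by
      refine le_trans ?_ (chain_step (own := own) hW hK hA hne (b + x))
      apply Nat.mul_le_mul_left
      have : (b + x) * K ≤ (b + R) * K := Nat.mul_le_mul_right _ (by omega)
      omega
    have hp := lev_pos hW hs (k := b + x) (by omega)
    have hp1 := lev_pos hW hs (k := b + (x + 1)) (by omega)
    have h3 := rec_real hW (k := b + x) (by omega)
    have hTn : D ≤ Fintype.card J - (b + x) := by omega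
    have h4 : (((CC W own Acc (b + x)).card : ℝ) + (UU W own Acc (b + x)).card) *
        ((Fintype.card J : ℝ) - (b + x : ℕ) - D) ≤
        (UU W own Acc (b + x + 1)).card * (((b + x : ℕ) + 1) * (2 ^ s - 1)) := by
      have h5 : ((2 ^ s - 1 : ℕ) : ℝ) = 2 ^ s - 1 := by
        rw [Nat.cast_sub Nat.one_le_two_pow]
        push_cast
        ring
      rw [← h5, ← Nat.cast_sub (by omega), ← Nat.cast_sub hTn]
      exact_mod_cast h2
    have h6 : ((CC W own Acc (b + x)).card : ℝ) + (UU W own Acc (b + x)).card ≤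
        (lev W (b + x)).card := by
      classical
      have h7 : CC W own Acc (b + x) ∪ UU W own Acc (b + x) ⊆ lev W (b + x) := by
        intro z hz
        rw [mem_union, CC, UU, mem_filter, mem_filter] at hz
        rcases hz with h | h
        · exact h.1
        · exact h.1
      have h8 := card_le_card h7
      rw [card_union_of_disjoint disj_CU] at h8
      exact_mod_cast h8
    rw [sum_range_succ]
    set c : ℝ := ((CC W own Acc (b + x)).card : ℝ) with hc
    set u : ℝ := ((UU W own Acc (b + x)).card : ℝ) with hu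
    have e0 : b + (x + 1) = b + x + 1 := by ring
    rw [e0] at hp1 ⊢
    set v : ℝ := ((UU W own Acc (b + x + 1)).card : ℝ) with hv
    set q : ℝ := ((lev W (b + x)).card : ℝ) with hq
    set q' : ℝ := ((lev W (b + x + 1)).card : ℝ) with hq'
    set m : ℝ := (Fintype.card J : ℝ) - (b + x : ℕ) with hm
    set w : ℝ := ((b + x : ℕ) + 1) * (2 ^ s - 1) with hw
    have hmp : 0 < m := by
      have : ((b + x : ℕ) : ℝ) + 1 ≤ Fintype.card J := by
        have : b + x + 1 ≤ Fintype.card J := by omega
        exact_mod_cast this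
      rw [hm]
      linarith
    have hwp : 0 < w := by
      have : 0 < q' * w := by
        rw [← h3]
        positivity
      exact (pos_iff_pos_of_mul_pos this).1 hp1
    have hTm : (D : ℝ) ≤ ε * m := by
      have hε0 : 0 ≤ ε := by
        by_contra hneg
        push Not at hneg
        have h9 : (0 : ℝ) < (Fintype.card J : ℝ) - b - R := by
          have : (b : ℝ) + R + D < Fintype.card J := by exact_mod_cast hM
          have : (0 : ℝ) ≤ D := Nat.cast_nonneg _
          linarith
        have h10 : ε * ((Fintype.card J : ℝ) - b - R) < 0 := mul_neg_of_neg_of_pos hneg h9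
        have : (0 : ℝ) ≤ D := Nat.cast_nonneg _
        linarith
      refine hε.trans (mul_le_mul_of_nonneg_left ?_ hε0)
      have : (x : ℝ) ≤ R := by exact_mod_cast (by omega : x ≤ R)
      rw [hm]
      push_cast
      linarith
    have h9 : c / q + u / q - ε ≤ v / q' := by
      rw [← add_div, le_div_iff₀ hp1, sub_mul]
      have h10 : (c + u) / q * q' * w = (c + u) * m := by
        field_simp
        nlinarith [h3]
      have h11 : (c + u) ≤ q := h6
      have h12 : 0 ≤ c + u := by positivity
      refine le_of_mul_le_mul_right ?_ hwp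
      calc ((c + u) / q * q' - ε * q') * w = (c + u) * m - ε * (q' * w) := by
            rw [sub_mul, h10]
            ring
        _ = (c + u) * m - ε * (q * m) := by rw [h3]
        _ ≤ (c + u) * (m - D) := by nlinarith
        _ ≤ v * w := h4
    have h10 : ((x + 1 : ℕ) : ℝ) * ε = x * ε + ε := by push_cast; ring
    rw [h10]
    linarith

open Classical in
/-- the number of right points -/
theorem bound (hW : Sys W s) {T K : ℕ} (hK : ∀ v, (univ.filter fun j => own j = v).card ≤ K)
    (hA : ∀ v, ∀ z, Acc v z → ∃ U : Finset I,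
      U.card ≤ T ∧ ∀ z' : I → Bool, (∀ i ∈ U, z' i = z i) → Acc v z') (hne : Nonempty ι)
    {h w : ℕ} (hh : 1 ≤ h) (hs : h + 2 ≤ s) (hμ : Fintype.card J = 2 ^ (2 * h) * 2 ^ s)
    (hw : 2 ^ w ≤ 2 ^ (2 * h)) (hhw : h ≤ w)
    (hR : 2 ^ (w + 1) * (2 * (2 ^ (2 * h + 1) * K + Fintype.card ι * T)) ≤ Fintype.card J) :
    ((univ.filter fun z : I → Bool => Cor W own Acc z).card : ℝ) ≤
      (2 ^ (2 * h) / 2 ^ (2 * w) + 8 / 2 ^ h) * tot I := by
  obtain ⟨b, hb⟩ : ∃ b, b + 2 ^ w = 2 ^ (2 * h) := ⟨_, Nat.sub_add_cancel hw⟩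
  obtain ⟨D, hD⟩ : ∃ D, D = 2 ^ (2 * h + 1) * K + Fintype.card ι * T := ⟨_, rfl⟩
  rw [← hD] at hR
  have hp1 : 2 ^ (w + 1) = 2 * 2 ^ w := by rw [pow_succ]; ring
  have hp2 : 2 ^ (2 * h + 1) = 2 * 2 ^ (2 * h) := by rw [pow_succ]; ring
  have hwp : 1 ≤ 2 ^ w := Nat.one_le_two_pow
  have hDR : (b + 2 ^ (w + 1)) * K + Fintype.card ι * T ≤ D := by
    rw [hD]
    apply Nat.add_le_add_right
    apply Nat.mul_le_mul_right
    omega
  -- twice the mean is at most half of the number of cells
  have hs4 : 2 ^ (2 * h + 2) ≤ Fintype.card J := by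
    rw [hμ, pow_add]
    apply Nat.mul_le_mul_left
    calc 2 ^ 2 ≤ 2 ^ (h + 2) := Nat.pow_le_pow_right (by norm_num) (by omega)
      _ ≤ 2 ^ s := Nat.pow_le_pow_right (by norm_num) hs
  have hp3 : 2 ^ (2 * h + 2) = 4 * 2 ^ (2 * h) := by rw [pow_add]; ring
  have hDJ : 4 * D ≤ Fintype.card J := by
    refine le_trans ?_ hR
    have h2 : 2 * (2 * D) ≤ 2 ^ (w + 1) * (2 * D) := by
      apply Nat.mul_le_mul_right
      omega
    omega
  have hJpos : 0 < Fintype.card J := by
    have : 0 < 2 ^ (2 * h + 2) := Nat.two_pow_pos _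
    omega
  set Out : Finset (I → Bool) := univ.filter fun z : I → Bool =>
    ¬ (b ≤ (win W z).card ∧ (win W z).card < b + 2 ^ (w + 1)) with hOut
  have h1 : (univ.filter fun z : I → Bool => Cor W own Acc z) ⊆
      Out ∪ (range (2 ^ (w + 1))).biUnion fun x => CC W own Acc (b + x) := by
    intro z hz
    rw [mem_filter] at hz
    rw [mem_union, hOut, mem_filter, mem_biUnion]
    by_cases h : b ≤ (win W z).card ∧ (win W z).card < b + 2 ^ (w + 1)
    · refine Or.inr ⟨(win W z).card - b, mem_range.2 (by omega), ?_⟩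
      rw [CC, mem_filter, mem_lev]
      exact ⟨by omega, hz.2⟩
    · exact Or.inl ⟨mem_univ _, h⟩
  have h2 := (card_le_card h1).trans ((card_union_le _ _).trans
    (Nat.add_le_add_left card_biUnion_le _))
  have h3 : ((univ.filter fun z : I → Bool => Cor W own Acc z).card : ℝ) ≤
      Out.card + ∑ x ∈ range (2 ^ (w + 1)), ((CC W own Acc (b + x)).card : ℝ) := by
    exact_mod_cast h2
  refine h3.trans ?_
  rw [add_mul]
  apply add_le_add
  · have h4 := out_card (I := I) (J := J) hW hμ b (2 ^ w) hb Out (by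
      intro z hz
      rw [hOut, mem_filter] at hz
      have := hz.2
      omega)
    have h5 : (((2 ^ w : ℕ) : ℝ)) ^ 2 = 2 ^ (2 * w) := by
      push_cast
      rw [← pow_mul]
      congr 1
      ring
    rw [h5] at h4
    have h6 : (0 : ℝ) < 2 ^ (2 * w) := by positivity
    rw [← le_div_iff₀ h6] at h4
    refine h4.trans (le_of_eq ?_)
    push_cast
    field_simp
  · have hε : (((b + 2 ^ (w + 1)) * K + Fintype.card ι * T : ℕ) : ℝ) ≤
        (2 * (D : ℝ) / Fintype.card J) * ((Fintype.card J : ℝ) - b - (2 ^ (w + 1) : ℕ)) := by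
      have h5 : (((b + 2 ^ (w + 1)) * K + Fintype.card ι * T : ℕ) : ℝ) ≤ D := by exact_mod_cast hDR
      refine h5.trans ?_
      have h6 : (Fintype.card J : ℝ) / 2 ≤ (Fintype.card J : ℝ) - b - (2 ^ (w + 1) : ℕ) := by
        have h7 : 2 * (b + 2 ^ (w + 1)) ≤ Fintype.card J := by omega
        have h8 : ((2 * (b + 2 ^ (w + 1)) : ℕ) : ℝ) ≤ Fintype.card J := by exact_mod_cast h7
        push_cast at h8 ⊢
        linarith
      have hJ : (0 : ℝ) < Fintype.card J := by exact_mod_cast hJpos
      calc (D : ℝ) = (2 * (D : ℝ) / Fintype.card J) * ((Fintype.card J : ℝ) / 2) := by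
            field_simp
        _ ≤ _ := mul_le_mul_of_nonneg_left h6 (by positivity)
    have h4 := chain_real (own := own) (b := b) (R := 2 ^ (w + 1)) hW (by omega) hK hA hne
      (by omega) hε (2 ^ (w + 1)) le_rfl
    have h5 : ((UU W own Acc (b + 2 ^ (w + 1))).card : ℝ) /
        (lev W (b + 2 ^ (w + 1))).card ≤ 1 := by
      apply div_le_one_of_le₀ _ (Nat.cast_nonneg _)
      exact_mod_cast card_filter_le _ _
    have h6 : ((2 ^ (w + 1) : ℕ) : ℝ) * (2 * (D : ℝ) / Fintype.card J) ≤ 1 := by
      have hJ : (0 : ℝ) < Fintype.card J := by exact_mod_cast hJpos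
      rw [mul_div_assoc', div_le_one hJ]
      exact_mod_cast hR
    have hQ : ∀ k, ((lev W k).card : ℝ) ≤ 4 / 2 ^ h * tot I := fun k => flat hW hh hs hμ k
    have hQ0 : 0 ≤ 4 / 2 ^ h * tot I := (Nat.cast_nonneg _).trans (hQ 0)
    calc ∑ y ∈ range (2 ^ (w + 1)), ((CC W own Acc (b + y)).card : ℝ) ≤
          ∑ y ∈ range (2 ^ (w + 1)), (4 / 2 ^ h * tot I) *
            (((CC W own Acc (b + y)).card : ℝ) / (lev W (b + y)).card) := by
          refine sum_le_sum fun y hy => ?_
          rw [mem_range] at hy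
          have h7 := lev_pos hW (by omega) (k := b + y) (by omega)
          rw [mul_div_assoc', le_div_iff₀ h7, mul_comm (4 / 2 ^ h * tot I)]
          exact mul_le_mul_of_nonneg_left (hQ (b + y)) (Nat.cast_nonneg _)
      _ = (4 / 2 ^ h * tot I) * ∑ y ∈ range (2 ^ (w + 1)),
            (((CC W own Acc (b + y)).card : ℝ) / (lev W (b + y)).card) := by
          rw [mul_sum]
      _ ≤ (4 / 2 ^ h * tot I) * 2 := mul_le_mul_of_nonneg_left (by linarith) hQ0
      _ = _ := by ring

end Pool.Agent.TH93.CC
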