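import Pool.Agent.TH93.GL.Defs

/-!
# Time classes on padded inputs, relative to an oracle

(Continues `Pool.Agent.H620R2.Gauge.Defs` and `Pool.Agent.TH93.GL.Defs`.)
-/

set_option autoImplicit false

namespace Pool.Agent.TH93.CC

open Pool.Agent.NPC Pool.Agent.H620R2.Gauge Pool.Agent.TH93.GL

/-- Nondeterministic time polynomial in `t(n)` relative to `A`: the verifier gets the string of
`t(n)` ones, the input and a string of length at most `p(t(n))`. -/
def InNT (t : ℕ → ℕ) (A : Oracle) (L : Set (List Bool)) : Prop :=
  ∃ p : Polynomial ℕ, InGuess t (fun n => p.eval (t n)) A L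

/-- Deterministic time polynomial in `t(n)` relative to `A`: the algorithm works in polynomial time
on the string of `t(n)` ones and the input. -/
def InDT (t : ℕ → ℕ) (A : Oracle) (L : Set (List Bool)) : Prop :=
  ∃ V : List Bool → List Bool, IsFP A V ∧
    ∀ x : List Bool, x ∈ L ↔ V (pairBits (List.replicate (t x.length) true) x) = [true]

/-- the test language -/
def HC (g s : ℕ → ℕ) (A : Oracle) : Set (List Bool) :=
  {x | ∃ w : List Bool, w.length = g x.length ∧
    ∀ i < s x.length, A (x ++ w ++ List.replicate i true) = true}

end Pool.Agent.TH93.CC
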