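import Pool.Agent.TH93.CC.Defs
import Pool.Agent.TH93.GL.Up
import Pool.Agent.H620R2.Gauge.Upper
import Pool.Agent.H622R2.Exp.KAux

/-!
# The easy directions
-/

set_option autoImplicit false

namespace Pool.Agent.TH93.CC

open Pool.Agent.NPC Pool.Agent.H620R2.Gauge Pool.Agent.H622R2 Pool.Agent.H622R2.Exp
open Pool.Agent.TH93.GL

/-! ### Functions that can be computed from the padding -/

theorem NiceT.size8 (τ : ℕ → ℕ) : NiceT τ (fun n => 8 * n.size) := by
  refine ⟨fun z => List.replicate (8 * (unpair z).2.length.size) true, polyTime_of_poly_list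
    (V7.poly_replicate ?_), fun x => ?_⟩
  · exact (UPoly.const 8).mul (Poly.comp KAux.upoly_size (Poly.snd poly_unpair))
  · simp only [unpair_pairBits]

theorem NiceT.add {τ g h : ℕ → ℕ} (hg : NiceT τ g) (hh : NiceT τ h) :
    NiceT τ (fun n => g n + h n) := by
  obtain ⟨F, hF, hFx⟩ := hg
  obtain ⟨G, hG, hGx⟩ := hh
  refine ⟨fun z => F z ++ G z, polyTime_of_poly_list
    (Poly.append (poly_of_polyTime hF) (poly_of_polyTime hG)), fun x => ?_⟩
  dsimp only
  rw [hFx, hGx, List.replicate_append_replicate]

theorem NiceT.trans {t' t g : ℕ → ℕ} (ht : NiceT t' t) (hg : NiceT t g) : NiceT t' g := by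
  obtain ⟨F, hF, hFx⟩ := ht
  obtain ⟨G, hG, hGx⟩ := hg
  refine ⟨fun z => G (pairBits (F z) (unpair z).2), polyTime_of_poly_list
    ((poly_of_polyTime hG).comp (poly_pairBits (poly_of_polyTime hF) (Poly.snd poly_unpair))),
    fun x => ?_⟩
  dsimp only
  rw [hFx, unpair_pairBits, hGx]

theorem NiceT.eval (t : ℕ → ℕ) (p : Polynomial ℕ) : NiceT t (fun n => p.eval (t n)) := by
  refine ⟨fun z => List.replicate (p.eval (unpair z).1.length) true, polyTime_of_poly_list
    (V7.poly_replicate ((UPoly.length (Poly.fst poly_unpair)).eval _)), fun x => ?_⟩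
  simp only [unpair_pairBits, List.length_replicate]

/-! ### The test language -/

/-- the questions -/
def QC (G : List Bool → List Bool) (z : List Bool) : List (List Bool) :=
  (List.range (G (unpair z).2).length).map (fun i =>
    (unpair (unpair z).2).2 ++ (unpair z).1 ++
      List.replicate (min i (G (unpair z).2).length) true)

/-- the verdict -/
def HHC (F : List Bool → List Bool) (y : List Bool × List Bool) : List Bool :=
  [decide ((unpair y.1).1.length = (F (unpair y.1).2).length) && y.2.all (fun b => b)]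

/-- The test language can be decided with `g` guessed bits. -/
theorem HC_guess {τ g s : ℕ → ℕ} (hg : NiceT τ g) (hs : NiceT τ s) (A : Oracle) :
    InGuess τ g A (HC g s A) := by
  obtain ⟨F, hF, hFx⟩ := hg
  obtain ⟨G, hG, hGx⟩ := hs
  have hPF := poly_of_polyTime hF
  have hPG := poly_of_polyTime hG
  have pQ : Poly (QC G) := poly_QG hPG
  have pH : Poly (HHC F) := poly_HG hPF
  refine ⟨fun z => HHC F (z, (QC G z).map A), IsFP.tt pQ pH, fun x => ?_⟩
  have key : ∀ w : List Bool, HHC F (pairBits w (pairBits (List.replicate (τ x.length) true) x),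
      (QC G (pairBits w (pairBits (List.replicate (τ x.length) true) x))).map A) = [true] ↔
      (w.length = g x.length ∧
        ∀ i < s x.length, A (x ++ w ++ List.replicate i true) = true) := by
    intro w
    unfold HHC QC
    simp only [unpair_pairBits, hFx, hGx, List.length_replicate, List.cons.injEq, and_true,
      Bool.and_eq_true, decide_eq_true_eq, List.all_eq_true, List.mem_map, List.mem_range]
    constructor
    · rintro ⟨h1, h2⟩
      refine ⟨h1, fun i hi => ?_⟩
      apply h2
      refine ⟨_, ⟨i, hi, rfl⟩, ?_⟩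
      rw [min_eq_left hi.le]
    · rintro ⟨h1, h2⟩
      refine ⟨h1, ?_⟩
      rintro b ⟨_, ⟨i, hi, rfl⟩, rfl⟩
      rw [min_eq_left hi.le]
      exact h2 i hi
  unfold HC
  rw [Set.mem_ofPred_eq]
  constructor
  · rintro ⟨w, hw, h⟩
    exact ⟨w, hw.le, (key w).2 ⟨hw, h⟩⟩
  · rintro ⟨w, _, hw⟩
    exact ⟨w, (key w).1 hw⟩

/-! ### Relations between the classes -/

/-- a deterministic class is contained in the complement of the nondeterministic one -/
theorem InDT.compl {t : ℕ → ℕ} {A : Oracle} {L : Set (List Bool)} (h : InDT t A L) :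
    InNT t A Lᶜ := by
  obtain ⟨V, hV, hx⟩ := h
  have h1 : Poly (fun y : List Bool => [decide (y ≠ [true])]) := by
    have h2 : Poly (fun y : List Bool => [!decide (y = [true])]) :=
      Poly.cons (Poly.not (Poly.decide_eq Poly.id (NPC.Poly.const [true]))) (NPC.Poly.const [])
    refine h2.congr fun y => ?_
    by_cases hy : y = [true] <;> simp [hy]
  have h2 : Poly (fun z : List Bool => (unpair z).2) := Poly.snd poly_unpair
  have h3 : IsFP A (fun z => [decide (V (unpair z).2 ≠ [true])]) :=
    (IsFP.of_poly h1).comp (hV.precomp h2)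
  refine ⟨0, _, h3, fun x => ?_⟩
  rw [Set.mem_compl_iff, hx x]
  simp only [unpair_pairBits, Polynomial.eval_zero, List.cons.injEq, and_true, decide_eq_true_eq]
  constructor
  · intro h
    exact ⟨[], le_rfl, h⟩
  · rintro ⟨w, _, h⟩
    exact h

/-- change of the padding -/
theorem InGuess.pad {t' t g : ℕ → ℕ} (ht : NiceT t' t) {A : Oracle} {L : Set (List Bool)}
    (h : InGuess t g A L) : InGuess t' g A L := by
  obtain ⟨F, hF, hFx⟩ := ht
  obtain ⟨V, hV, hx⟩ := h
  have h1 : Poly (fun z : List Bool => unpair z) := poly_unpair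
  have h2 : Poly (fun z : List Bool => (unpair z).2) := Poly.snd h1
  have h3 : Poly (fun z : List Bool => (unpair (unpair z).2).2) := Poly.snd (h1.comp h2)
  refine ⟨fun z => V (pairBits (unpair z).1 (pairBits (F (unpair z).2) (unpair (unpair z).2).2)),
    hV.precomp (poly_pairBits (Poly.fst h1) (poly_pairBits ((poly_of_polyTime hF).comp h2) h3)),
    fun x => ?_⟩
  simp only [unpair_pairBits, hFx]
  exact hx x

/-- no guessed bits -/
theorem InGuess.zero {t : ℕ → ℕ} {A : Oracle} {L : Set (List Bool)}
    (h : InGuess t (fun _ => 0) A L) : InDT t A L := by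
  obtain ⟨V, hV, hx⟩ := h
  refine ⟨fun z => V (pairBits [] z), hV.precomp (poly_pairBits (NPC.Poly.const []) Poly.id),
    fun x => ?_⟩
  rw [hx x]
  constructor
  · rintro ⟨w, hw, h⟩
    rw [List.length_eq_zero_iff.1 (Nat.le_zero.1 hw)] at h
    exact h
  · intro h
    exact ⟨[], le_rfl, h⟩

/-- few guessed bits can be tried -/
theorem InGuess.toDT {t' t g : ℕ → ℕ} (ht : NiceT t' t) (hg : NiceT t g) {c : ℕ}
    (hc : ∀ n, g n ≤ c * (Nat.log 2 (t' n) + 1)) {A : Oracle} {L : Set (List Bool)}
    (h : InGuess t g A L) : InDT t' A L := by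
  apply InGuess.zero
  refine (InGuess.pad ht h).save (NiceT.trans ht hg) (c := c) fun n => ?_
  have := hc n
  omega

end Pool.Agent.TH93.CC
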