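import Pool.Agent.TH93.CC.Stage
import Pool.Agent.TH93.CC.Up
import Pool.Agent.TH93.GL.Low

/-!
# Closure under complements: the law
-/

set_option autoImplicit false

namespace Pool.Agent.TH93.CC

open Pool.Agent.NPC Pool.Agent.H620R2.Gauge Pool.Agent.TH678.ETH
open MeasureTheory Filter
open Pool.Agent.TH93.GL Pool.Agent.TH93.CA
open Pool.Agent.TH683.AT (poly_small)

theorem size_small : ∀ᶠ n : ℕ in atTop, 16 * n.size ≤ n ∧ 2 ≤ n.size := by
  obtain ⟨n₀, hn₀⟩ := poly_small (16 * (Polynomial.X + 1))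
  filter_upwards [eventually_ge_atTop (2 ^ (n₀ + 2))] with n hn
  have h1 : n ≠ 0 := by
    rintro rfl
    have : 0 < 2 ^ (n₀ + 2) := Nat.two_pow_pos _
    omega
  have h2 : n₀ + 2 ≤ Nat.log 2 n := (Nat.le_log_iff_pow_le (by norm_num) h1).2 hn
  have h3 := size_eq (n := n) (by omega)
  have h4 := hn₀ (Nat.log 2 n) (by omega)
  simp only [Polynomial.eval_mul, Polynomial.eval_add, Polynomial.eval_X, Polynomial.eval_one,
    Polynomial.eval_ofNat] at h4
  have h5 := Nat.pow_log_le_self 2 h1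
  omega

/-- one algorithm and one bound for the certificates -/
theorem ae_one (M : Alg) (q : Polynomial ℕ) : ∃ c : ℕ, ∀ g t : ℕ → ℕ, (∀ n, n ≤ t n) →
    ∀ᵐ A ∂ranO, ∀ᶠ n : ℕ in atTop, c * (Nat.log 2 (t n) + 1) ≤ g n →
      A ∉ EvC M n (g n) (16 * n.size) (g n + 8 * n.size) (q.eval (t n)) (t n) := by
  obtain ⟨c, hc⟩ := poly_log (M.p.comp (2 * q + 2 * Polynomial.X + Polynomial.X + 2))
  refine ⟨c + 9, fun g t ht => ?_⟩
  have h1 := ae_not (E := fun n => {A | (c + 9) * (Nat.log 2 (t n) + 1) ≤ g n ∧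
    A ∈ EvC M n (g n) (16 * n.size) (g n + 8 * n.size) (q.eval (t n)) (t n)}) (C := 9) (by
    filter_upwards [size_small, eventually_ge_atTop 1] with n hn hn1
    by_cases hg : (c + 9) * (Nat.log 2 (t n) + 1) ≤ g n
    swap
    · have : {A : Oracle | (c + 9) * (Nat.log 2 (t n) + 1) ≤ g n ∧
          A ∈ EvC M n (g n) (16 * n.size) (g n + 8 * n.size) (q.eval (t n)) (t n)} = ∅ := by
        ext A
        simp [hg]
      rw [this, measure_empty]
      exact zero_le
    refine (measure_mono fun A hA => hA.2).trans (ev_stage M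
      (T := 2 ^ (c * (Nat.log 2 (t n) + 1))) ?_ hn.1 hn.2 ?_)
    · refine le_trans ?_ (hc (t n))
      rw [Polynomial.eval_comp]
      simp only [Polynomial.eval_add, Polynomial.eval_mul, Polynomial.eval_ofNat,
        Polynomial.eval_X]
      have := ht n
      exact eval_mono _ (by omega)
    · rw [Nat.log_pow (by norm_num)]
      have h2 := size_eq hn1
      have h3 : Nat.log 2 n ≤ Nat.log 2 (t n) := Nat.log_mono_right (ht n)
      have h4 : (c + 9) * (Nat.log 2 (t n) + 1) =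
          c * (Nat.log 2 (t n) + 1) + 9 * (Nat.log 2 (t n) + 1) := by ring
      omega)
  filter_upwards [h1] with A hA
  filter_upwards [hA] with n hn h2 h3
  exact hn ⟨h2, h3⟩

/-- Relative to almost every oracle the complement of the test language is hard. -/
theorem ae_hard {S : Set (ℕ → ℕ)} (hS : S.Countable) :
    ∀ᵐ A ∂ranO, ∀ t ∈ S, ∀ t' ∈ S, (∀ n, n ≤ t' n) → ∀ g, NiceT t g →
      InNT t' A (HC g (fun n => g n + 8 * n.size) A)ᶜ →
      ∃ c, ∀ n, g n ≤ c * (Nat.log 2 (t' n) + 1) := by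
  have hcp : Countable (Polynomial ℕ) := countable_polyN
  choose C hC using ae_one
  have h1 : ∀ᵐ A ∂ranO, ∀ t ∈ S, ∀ t' ∈ S, ∀ g, NiceT t g → ∀ M : Alg, ∀ q : Polynomial ℕ,
      (∀ n, n ≤ t' n) → ∀ᶠ n : ℕ in atTop, C M q * (Nat.log 2 (t' n) + 1) ≤ g n →
      A ∉ EvC M n (g n) (16 * n.size) (g n + 8 * n.size) (q.eval (t' n)) (t' n) := by
    refine (ae_ball_iff hS).2 fun t _ => (ae_ball_iff hS).2 fun t' _ =>
      (ae_ball_iff (countable_niceT t)).2 fun g _ => ae_all_iff.2 fun M => ae_all_iff.2 fun q => ?_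
    by_cases ht : ∀ n, n ≤ t' n
    · filter_upwards [hC M q g t' ht] with A hA _
      exact hA
    · exact Filter.Eventually.of_forall fun A h => absurd h ht
  filter_upwards [h1] with A hA t ht t' ht' hn g hg ⟨q, V, ⟨M, hM⟩, hx⟩
  obtain ⟨n₀, hn₀⟩ := eventually_atTop.1 (hA t ht t' ht' g hg M q hn)
  refine ⟨C M q + ∑ i ∈ Finset.range n₀, g i, fun n => ?_⟩
  by_cases hlt : n < n₀
  · have h1 : g n ≤ ∑ i ∈ Finset.range n₀, g i :=
      Finset.single_le_sum (f := g) (fun i _ => Nat.zero_le _) (Finset.mem_range.2 hlt)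
    exact (h1.trans (Nat.le_add_left _ _)).trans (Nat.le_mul_of_pos_right _ (by omega))
  · by_contra hcon
    push Not at hcon
    have h2 : C M q * (Nat.log 2 (t' n) + 1) ≤
        (C M q + ∑ i ∈ Finset.range n₀, g i) * (Nat.log 2 (t' n) + 1) :=
      Nat.mul_le_mul_right _ (Nat.le_add_right _ _)
    refine hn₀ n (by omega) (by omega) fun v hv => ?_
    have h3 := hx (bitsOf n v)
    rw [length_bitsOf] at h3
    have h4 : (bitsOf n v ∈ (HC g (fun n => g n + 8 * n.size) A)ᶜ) ↔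
        ¬ ∃ w : List Bool, w.length = g n ∧ ∀ i < g n + 8 * n.size,
          A (bitsOf n v ++ w ++ List.replicate i true) = true := by
      unfold HC
      rw [Set.mem_compl_iff, Set.mem_ofPred_eq, length_bitsOf]
    rw [← h4, h3]
    refine exists_congr fun w => and_congr_right fun _ => ?_
    rw [hM, Option.some.injEq]

/-- **Closure under complements.** -/
theorem law {S : Set (ℕ → ℕ)} (hS : S.Countable) :
    ∀ᵐ A ∂ranO, ∀ t ∈ S, ∀ t' ∈ S, (∀ n, n ≤ t' n) → NiceT t' t →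
      (∀ g, NiceT t g → List.TFAE [
        ∀ L, InGuess t g A L → InNT t' A Lᶜ,
        ∀ L, InGuess t g A L → InDT t' A L,
        ∃ c, ∀ n, g n ≤ c * (Nat.log 2 (t' n) + 1)]) ∧
      List.TFAE [
        ∀ L, InNT t A L → InNT t' A Lᶜ,
        ∀ L, InNT t A L → InDT t' A L,
        ∀ p : Polynomial ℕ, ∃ c, ∀ n, p.eval (t n) ≤ c * (Nat.log 2 (t' n) + 1)] := by
  filter_upwards [ae_hard hS] with A hA t ht t' ht' hn htt
  have key : ∀ g, NiceT t g → List.TFAE [
      ∀ L, InGuess t g A L → InNT t' A Lᶜ,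
      ∀ L, InGuess t g A L → InDT t' A L,
      ∃ c, ∀ n, g n ≤ c * (Nat.log 2 (t' n) + 1)] := by
    intro g hg
    tfae_have 2 → 1 := fun h L hL => (h L hL).compl
    tfae_have 1 → 3 := fun h => hA t ht t' ht' hn g hg
      (h _ (HC_guess hg (NiceT.add hg (NiceT.size8 t)) A))
    tfae_have 3 → 2 := by
      rintro ⟨c, hc⟩ L hL
      exact InGuess.toDT htt hg hc hL
    tfae_finish
  refine ⟨key, ?_⟩
  tfae_have 2 → 1 := fun h L hL => (h L hL).compl
  tfae_have 1 → 3 := fun h p => ((key _ (NiceT.eval t p)).out 0 2).1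
    fun L hL => h L ⟨p, hL⟩
  tfae_have 3 → 2 := by
    rintro h L ⟨p, hL⟩
    obtain ⟨c, hc⟩ := h p
    exact InGuess.toDT htt (NiceT.eval t p) hc hL
  tfae_finish

end Pool.Agent.TH93.CC
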