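import Pool.Agent.TH93.CC.Chain
import Pool.Agent.TH93.CA.Ev

/-!
# One stage: the probability that an algorithm accepts exactly the complement of the test language
-/

set_option autoImplicit false

namespace Pool.Agent.TH93.CC

open Pool.Agent.NPC Pool.Agent.H620R2.Gauge Finset H568R2 Pool.Agent.H676 Pool.Agent.TH678.ETH
open MeasureTheory Filter
open Pool.Agent.TH93.GL (wt length_wt wt_inj)
open Pool.Agent.TH93.CA

open Classical in
/-- the positions of the strings of the cell number `j` -/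
noncomputable def WJ (N n m r s : ℕ) (j : Fin (2 ^ r) × Fin (2 ^ m)) : Finset (Fin N) :=
  univ.filter (fun e => ∃ i < s, str e = wt (bitsOf n j.1.val) m j.2.val i)

theorem WJ_lt {N n m s : ℕ} (hN : 2 ^ (n + m + s + 1) ≤ N + 1) (v j : ℕ) {i : ℕ}
    (hi : i < s) : idx (wt (bitsOf n v) m j i) < N := by
  have h1 := idx_lt (wt (bitsOf n v) m j i)
  rw [length_wt, length_bitsOf] at h1
  have h2 : 2 ^ (n + m + i + 1) ≤ 2 ^ (n + m + s + 1) :=
    Nat.pow_le_pow_right (by norm_num) (by omega)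
  omega

theorem WJ_sys {N n m r s : ℕ} (hr : r ≤ n) (hN : 2 ^ (n + m + s + 1) ≤ N + 1) :
    Sys (WJ N n m r s) s where
  card j := by
    have h := Finset.card_bij (s := Finset.range s) (t := WJ N n m r s j)
      (fun i hi => ⟨idx (wt (bitsOf n j.1.val) m j.2.val i),
        WJ_lt hN j.1.val j.2.val (Finset.mem_range.1 hi)⟩) (by
        intro i hi
        rw [WJ, Finset.mem_filter]
        exact ⟨Finset.mem_univ _, i, Finset.mem_range.1 hi, str_idx _⟩) (by
        intro i hi i' hi' h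
        have h1 : idx (wt (bitsOf n j.1.val) m j.2.val i) =
          idx (wt (bitsOf n j.1.val) m j.2.val i') := by simpa using h
        have h2 : wt (bitsOf n j.1.val) m j.2.val i = wt (bitsOf n j.1.val) m j.2.val i' := by
          rw [← str_idx (wt (bitsOf n j.1.val) m j.2.val i), h1, str_idx]
        have := congrArg List.length h2
        rw [length_wt, length_wt] at this
        omega) (by
        intro e he
        rw [WJ, Finset.mem_filter] at he
        obtain ⟨_, i, hi, h⟩ := he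
        refine ⟨i, Finset.mem_range.2 hi, ?_⟩
        apply Fin.ext
        show idx (wt (bitsOf n j.1.val) m j.2.val i) = e
        rw [← h, idx_str])
    rw [← h, Finset.card_range]
  disj j j' hne := by
    rw [Finset.disjoint_left]
    intro e he he'
    rw [WJ, Finset.mem_filter] at he he'
    obtain ⟨_, i, _, hi⟩ := he
    obtain ⟨_, i', _, hi'⟩ := he'
    rw [hi] at hi'
    obtain ⟨h1, h2, _⟩ := wt_inj (by rw [length_bitsOf, length_bitsOf]) j.2.2 j'.2.2 hi'
    have hle : 2 ^ r ≤ 2 ^ n := Nat.pow_le_pow_right (by norm_num) hr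
    have h3 := bitsOf_inj (j.1.2.trans_le hle) (j'.1.2.trans_le hle) h1
    exact hne (Prod.ext (Fin.ext h3) (Fin.ext h2))

/-- the input is hit -/
theorem hit_iff {N n m r s : ℕ} (hN : 2 ^ (n + m + s + 1) ≤ N + 1) (A : Oracle)
    (v : Fin (2 ^ r)) : Hit (WJ N n m r s) Prod.fst (pre N A) v ↔
    ∃ w : List Bool, w.length = m ∧
      ∀ i < s, A (bitsOf n v.val ++ w ++ List.replicate i true) = true := by
  constructor
  · rintro ⟨⟨v', j⟩, hj, rfl⟩
    rw [mem_win] at hj
    refine ⟨bitsOf m j.val, length_bitsOf _ _, fun i hi => ?_⟩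
    have h3 := hj ⟨idx (wt (bitsOf n v'.val) m j.val i), WJ_lt hN _ _ hi⟩ (by
      rw [WJ, Finset.mem_filter]
      exact ⟨Finset.mem_univ _, i, hi, str_idx _⟩)
    unfold pre at h3
    simp only at h3
    rwa [str_idx] at h3
  · rintro ⟨w, hw, h⟩
    obtain ⟨j, hj, hjw⟩ := exists_bitsOf w
    rw [hw] at hj hjw
    refine ⟨(v, ⟨j, hj⟩), ?_, rfl⟩
    rw [mem_win]
    intro e he
    rw [WJ, Finset.mem_filter] at he
    obtain ⟨_, i, hi, hei⟩ := he
    unfold pre
    rw [hei]
    unfold Pool.Agent.TH93.GL.wt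
    dsimp only
    rw [hjw]
    exact h i hi

/-- the event that `M` is right about the complement on the first inputs -/
def EvC (M : Alg) (n m r s u τ : ℕ) : Set Oracle :=
  {A | ∀ v < 2 ^ r, ((∃ w : List Bool, w.length ≤ u ∧
      M.out A (pairBits w (pairBits (List.replicate τ true) (bitsOf n v))) = some [true]) ↔
      ¬ ∃ w : List Bool, w.length = m ∧
        ∀ i < s, A (bitsOf n v ++ w ++ List.replicate i true) = true)}

open Classical in
/-- the probability of the event -/
theorem ev_stage (M : Alg) {n m u τ T : ℕ} (hT : M.p.eval (2 * u + 2 * τ + n + 2) ≤ T)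
    (hn : 16 * n.size ≤ n) (hσ : 2 ≤ n.size) (hTm : Nat.log 2 T + 1 + (5 * n.size + 3) ≤ m) :
    ranO (EvC M n m (16 * n.size) (m + 8 * n.size) u τ) ≤ ENNReal.ofReal (9 / ((n : ℝ) ^ 2)) := by
  obtain ⟨qb, hqb⟩ := Alg.out_local M
  have hsz : n < 2 ^ n.size := Nat.lt_size_self n
  obtain ⟨σ, hσd⟩ : ∃ σ, σ = n.size := ⟨_, rfl⟩
  rw [← hσd] at hn hσ hTm hsz ⊢
  have hn1 : 1 ≤ n := by omega
  obtain ⟨s, hs⟩ : ∃ s, s = m + 8 * σ := ⟨_, rfl⟩
  obtain ⟨r, hr⟩ : ∃ r, r = 16 * σ := ⟨_, rfl⟩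
  rw [← hs, ← hr]
  obtain ⟨B, hB⟩ : ∃ B, B = qb.eval (2 * u + 2 * τ + n + 2) + (n + m + s) := ⟨_, rfl⟩
  obtain ⟨N, hN⟩ : ∃ N, N = 2 ^ (B + 1) := ⟨_, rfl⟩
  have hNW : 2 ^ (n + m + s + 1) ≤ N + 1 := by
    have : 2 ^ (n + m + s + 1) ≤ 2 ^ (B + 1) := Nat.pow_le_pow_right (by norm_num) (by omega)
    omega
  have hsys := WJ_sys (N := N) (n := n) (m := m) (r := r) (s := s) (by omega) hNW
  have hcJ : Fintype.card (Fin (2 ^ r) × Fin (2 ^ m)) = 2 ^ (r + m) := by
    rw [Fintype.card_prod, Fintype.card_fin, Fintype.card_fin, pow_add]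
  obtain ⟨Acc, hAcc⟩ : ∃ Acc : Fin (2 ^ r) → (Fin N → Bool) → Prop, Acc = fun v z =>
    ∃ w : List Bool, w.length ≤ u ∧
      M.out (orc N z) (pairBits w (pairBits (List.replicate τ true) (bitsOf n v.val))) =
        some [true] := ⟨_, rfl⟩
  have hlen : ∀ w : List Bool, w.length ≤ u → ∀ v : ℕ,
      (pairBits w (pairBits (List.replicate τ true) (bitsOf n v))).length ≤
        2 * u + 2 * τ + n + 2 := by
    intro w hw v
    rw [length_pairBits, length_pairBits, List.length_replicate, length_bitsOf]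
    omega
  have hR : 2 ^ (5 * σ + 1) * (2 * (2 ^ (2 * (4 * σ) + 1) * 2 ^ m +
      Fintype.card (Fin (2 ^ r)) * T)) ≤ Fintype.card (Fin (2 ^ r) × Fin (2 ^ m)) := by
    rw [hcJ, Fintype.card_fin]
    have e0 : T ≤ 2 ^ (Nat.log 2 T + 1) := (Nat.lt_pow_succ_log_self (by norm_num) T).le
    have e1 : 2 ^ (5 * σ + 1) * (2 * (2 ^ (2 * (4 * σ) + 1) * 2 ^ m)) ≤ 2 ^ (r + m - 1) := by
      calc 2 ^ (5 * σ + 1) * (2 * (2 ^ (2 * (4 * σ) + 1) * 2 ^ m)) =
            2 ^ (5 * σ + 1 + 1 + (2 * (4 * σ) + 1) + m) := by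
            simp only [pow_add, pow_one]; ring
        _ ≤ _ := Nat.pow_le_pow_right (by norm_num) (by omega)
    have e2 : 2 ^ (5 * σ + 1) * (2 * (2 ^ r * T)) ≤ 2 ^ (r + m - 1) := by
      calc 2 ^ (5 * σ + 1) * (2 * (2 ^ r * T)) ≤
            2 ^ (5 * σ + 1) * (2 * (2 ^ r * 2 ^ (Nat.log 2 T + 1))) := by gcongr
        _ = 2 ^ (5 * σ + 1 + 1 + r + (Nat.log 2 T + 1)) := by
            simp only [pow_add, pow_one]; ring
        _ ≤ _ := Nat.pow_le_pow_right (by norm_num) (by omega)
    have e3 : 2 ^ (r + m) = 2 ^ (r + m - 1) + 2 ^ (r + m - 1) := by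
      rw [← two_mul, ← pow_succ']
      congr 1
      omega
    rw [e3]
    calc _ = 2 ^ (5 * σ + 1) * (2 * (2 ^ (2 * (4 * σ) + 1) * 2 ^ m)) +
          2 ^ (5 * σ + 1) * (2 * (2 ^ r * T)) := by ring
      _ ≤ _ := Nat.add_le_add e1 e2
  have hbd := bound (I := Fin N) (J := Fin (2 ^ r) × Fin (2 ^ m)) (ι := Fin (2 ^ r))
    (own := Prod.fst) (Acc := Acc) hsys (T := T) (K := 2 ^ m) (h := 4 * σ) (w := 5 * σ)
    (by
      intro v
      have h1 : (univ.filter fun j : Fin (2 ^ r) × Fin (2 ^ m) => j.1 = v).card ≤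
          (univ : Finset (Fin (2 ^ m))).card := by
        refine Finset.card_le_card_of_injOn Prod.snd (fun j _ => mem_coe.2 (mem_univ _)) ?_
        intro j hj j' hj' he
        rw [mem_coe, mem_filter] at hj hj'
        exact Prod.ext (hj.2.trans hj'.2.symm) he
      rwa [card_univ, Fintype.card_fin] at h1)
    (by
      intro v z hz
      rw [hAcc] at hz
      obtain ⟨w, hw, hacc⟩ := hz
      obtain ⟨U, hU, hU2⟩ := run_local M (orc N z)
        (pairBits w (pairBits (List.replicate τ true) (bitsOf n v.val)))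
        (M.p.eval (pairBits w (pairBits (List.replicate τ true) (bitsOf n v.val))).length) []
      refine ⟨univ.filter fun e : Fin N => str e ∈ U, ?_, ?_⟩
      · have h4 : (univ.filter fun e : Fin N => str e ∈ U).card ≤ U.card := by
          refine Finset.card_le_card_of_injOn (fun e : Fin N => str e)
            (fun e he => (Finset.mem_filter.1 he).2) ?_
          intro e _ e' _ he
          apply Fin.ext
          have := congrArg idx he
          rwa [idx_str, idx_str] at this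
        refine h4.trans (hU.trans (le_trans ?_ hT))
        exact eval_mono _ (hlen w hw v)
      · intro z' hz'
        rw [hAcc]
        refine ⟨w, hw, ?_⟩
        have h5 : M.out (orc N z')
            (pairBits w (pairBits (List.replicate τ true) (bitsOf n v.val))) =
            M.out (orc N z) (pairBits w (pairBits (List.replicate τ true) (bitsOf n v.val))) := by
          apply hU2
          intro q hq
          unfold orc
          by_cases hqN : idx q < N
          · rw [dif_pos hqN, dif_pos hqN]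
            apply hz'
            rw [Finset.mem_filter]
            refine ⟨Finset.mem_univ _, ?_⟩
            show str (idx q) ∈ U
            rwa [str_idx]
          · rw [dif_neg hqN, dif_neg hqN]
        rw [h5]
        exact hacc)
    ⟨⟨0, Nat.two_pow_pos _⟩⟩ (by omega) (by omega)
    (by
      rw [hcJ, ← pow_add]
      congr 1
      omega)
    (Nat.pow_le_pow_right (by norm_num) (by omega)) (by omega) hR
  obtain ⟨P, hP⟩ : ∃ P : (Fin N → Bool) → Prop, P = fun z =>
      Cor (WJ N n m r s) Prod.fst Acc z := ⟨_, rfl⟩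
  have hev : EvC M n m r s u τ ⊆ {A : Oracle | P (pre N A)} := by
    intro A hx
    rw [Set.mem_ofPred_eq, hP]
    intro v
    rw [hit_iff hNW, ← hx v.val v.2, hAcc]
    refine exists_congr fun w => and_congr_right fun hw => ?_
    have h6 : M.out (orc N (pre N A))
        (pairBits w (pairBits (List.replicate τ true) (bitsOf n v.val))) =
        M.out A (pairBits w (pairBits (List.replicate τ true) (bitsOf n v.val))) := by
      obtain ⟨Q, _, hQl, hQA⟩ := hqb A
        (pairBits w (pairBits (List.replicate τ true) (bitsOf n v.val)))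
      apply hQA
      intro q hq
      apply orc_pre
      have h7 := idx_lt q
      have h8 := hQl q hq
      have h9 := eval_mono qb (hlen w hw v.val)
      have h10 : 2 ^ (q.length + 1) ≤ 2 ^ (B + 1) := Nat.pow_le_pow_right (by norm_num) (by omega)
      omega
    rw [h6]
  refine (measure_mono hev).trans ((Pool.Agent.TH683.CP.ranO_pre P).trans
    (ENNReal.ofReal_le_ofReal ?_))
  have h6 := card_of_Ex P
  rw [← h6]
  have h7 : tot (Fin N) * 2 ^ (-(N : ℝ)) = 1 := by
    unfold tot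
    rw [Fintype.card_fun, Fintype.card_fin, Fintype.card_bool]
    push_cast
    rw [← Real.rpow_natCast, ← Real.rpow_add (by norm_num)]
    simp
  have h8 : (0 : ℝ) < 2 ^ (-(N : ℝ)) := by positivity
  have hbd2 : ((univ.filter P).card : ℝ) ≤
      (2 ^ (2 * (4 * σ)) / 2 ^ (2 * (5 * σ)) + 8 / 2 ^ (4 * σ)) * tot (Fin N) := by
    refine le_trans (le_of_eq ?_) hbd
    congr 2
    ext z
    simp only [mem_filter, hP]
  refine (mul_le_mul_of_nonneg_right hbd2 h8.le).trans ?_
  rw [mul_assoc, h7, mul_one]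
  -- the numbers
  have hnr : (0 : ℝ) < (n : ℝ) ^ 2 := by
    have : (0 : ℝ) < n := by exact_mod_cast hn1
    positivity
  have e1 : (n : ℝ) ^ 2 ≤ 2 ^ (2 * σ) := by
    rw [mul_comm, pow_mul]
    have : (n : ℝ) ≤ 2 ^ σ := by exact_mod_cast hsz.le
    exact pow_le_pow_left₀ (Nat.cast_nonneg _) this 2
  have e2 : (2 : ℝ) ^ (2 * (4 * σ)) / 2 ^ (2 * (5 * σ)) = 1 / 2 ^ (2 * σ) := by
    have : (2 : ℝ) ^ (2 * (5 * σ)) = 2 ^ (2 * (4 * σ)) * 2 ^ (2 * σ) := by
      rw [← pow_add]
      congr 1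
      omega
    rw [this]
    field_simp
  have e3 : (8 : ℝ) / 2 ^ (4 * σ) ≤ 8 / 2 ^ (2 * σ) := by
    have : (2 : ℝ) ^ (2 * σ) ≤ 2 ^ (4 * σ) := pow_le_pow_right₀ (by norm_num) (by omega)
    gcongr
  rw [e2]
  calc 1 / (2 : ℝ) ^ (2 * σ) + 8 / 2 ^ (4 * σ) ≤ 1 / 2 ^ (2 * σ) + 8 / 2 ^ (2 * σ) := by linarith
    _ = 9 / 2 ^ (2 * σ) := by ring
    _ ≤ 9 / (n : ℝ) ^ 2 := by gcongr

end Pool.Agent.TH93.CC
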